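import Pool.Agent.Helper25.ED.Asm
import Pool.Agent.Helper25.ED.Asy
import Pool.Agent.Helper25.ED.Lw
import Pool.Agent.Helper47.EG.FinX
import Pool.Agent.Helper19.EQ.Fin3
import Pool.Agent.Helper63.QL.R3

/-!
# MP_a499ba_nt: sums of the Moebius and Liouville functions with a monotone weight

For `f` the Moebius or the Liouville function and a weight `w` on `[0, 1)`, `S f w N` is the sum of `f n * w (n / N)`
over the positive integers `n < N`. The weight `w = 1` gives the summatory function of the problem (at `N - 1`).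
The weights are nonnegative, nondecreasing, not identically zero, with `w (1 - 1 / N) = O (√N)`.

* For the weight `(log (e / (1 - t))) ^ (5 / 4)` the absolute value of the sum exceeds a constant times
  `√N * (log log log N) ^ (5 / 4)`, the function of the problem, for arbitrarily large `N`.
* For every unbounded weight `S f w N / √N` is unbounded in both directions, in every window `[X, X ^ 3]`, and its
  absolute value exceeds a constant times `w (1 - (log log log N) ^ 3 / log log N)` for arbitrarily large `N`.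
* For a bounded weight `S f w N` and the summatory function have the same order `√N * G N`, for every nondecreasing
  `G ≥ 1`.
-/

set_option autoImplicit false

namespace Pool.Agent.Results.MP_a499ba_nt.EdgeWeights

open Filter Asymptotics

/-- The sum over the positive integers `n < N` of `f n * w (n / N)`. -/
noncomputable def S (f : ArithmeticFunction ℤ) (w : ℝ → ℝ) (N : ℕ) : ℝ :=
  ∑ n ∈ Finset.Ico 1 N, (f n : ℝ) * w ((n : ℝ) / N)

/-- The summatory function of `f` at the integer `N`. -/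
noncomputable def F (f : ArithmeticFunction ℤ) (N : ℕ) : ℝ :=
  ∑ n ∈ Finset.Icc 1 N, (f n : ℝ)

lemma general (f : ArithmeticFunction ℤ) (hf : f = ArithmeticFunction.moebius ∨ f = ArithmeticFunction.liouville)
    (w : ℝ → ℝ) (h0 : ∀ t ∈ Set.Ico (0 : ℝ) 1, 0 ≤ w t) (hw : MonotoneOn w (Set.Ico 0 1))
    (hne : ∃ t ∈ Set.Ico (0 : ℝ) 1, w t ≠ 0) (C : ℝ) (hC : ∀ N : ℕ, 1 ≤ N → w (1 - 1 / N) ≤ C * √N) :
    (¬ BddAbove (w '' Set.Ico 0 1) →
      (∀ K : ℝ, ∃ X₀ : ℕ, ∀ X : ℕ, X₀ ≤ X →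
        (∃ N : ℕ, X ≤ N ∧ N ≤ X ^ 3 ∧ K * √N < S f w N) ∧
        ∃ N : ℕ, X ≤ N ∧ N ≤ X ^ 3 ∧ S f w N < -(K * √N)) ∧
      ∃ c : ℝ, 0 < c ∧ ∀ X : ℕ, ∃ N : ℕ, X ≤ N ∧
        c * w (1 - Real.log (Real.log (Real.log N)) ^ 3 / Real.log (Real.log N)) * √N < |S f w N|) ∧
    ∀ G : ℕ → ℝ, Monotone G → (∀ n, 1 ≤ G n) →
      ((S f w =O[atTop] fun N : ℕ => √(N : ℝ) * G N) → F f =O[atTop] fun N : ℕ => √(N : ℝ) * G N) ∧
      (Tendsto G atTop atTop →
        (S f w =o[atTop] fun N : ℕ => √(N : ℝ) * G N) → F f =o[atTop] fun N : ℕ => √(N : ℝ) * G N) ∧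
      (BddAbove (w '' Set.Ico 0 1) →
        ((F f =O[atTop] fun N : ℕ => √(N : ℝ) * G N) → S f w =O[atTop] fun N : ℕ => √(N : ℝ) * G N) ∧
        ((F f =o[atTop] fun N : ℕ => √(N : ℝ) * G N) → S f w =o[atTop] fun N : ℕ => √(N : ℝ) * G N)) := by
  have habs : ∀ n, |((f n : ℤ) : ℝ)| ≤ 1 := Pool.Agent.Helper25.ED.abs_le_one hf
  have hF0 : F f 0 = 0 := by simp [F]
  have hS0 : S f w 0 = 0 := by simp [S]
  refine ⟨fun hub => ⟨?_, ?_⟩, fun G hG hG1 => ⟨fun h => ?_, fun hGt h => ?_, fun hB => ⟨fun h => ?_, fun h => ?_⟩⟩⟩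
  · exact Pool.Agent.Helper47.EG.win f hf h0 hw hC hub
  · rcases hf with rfl | rfl
    · obtain ⟨c, hc, h⟩ := Pool.Agent.Helper19.QD.quant3 (w := w) (Cw := C)
        ⟨h0, hw, Pool.Agent.Helper25.ED.exceeds hub, hC⟩
      refine ⟨c, hc, fun X => ?_⟩
      obtain ⟨N, hN, h1⟩ := h X
      refine ⟨N, hN, ?_⟩
      rw [mul_right_comm] at h1
      exact h1
    · obtain ⟨c, hc, h⟩ := Pool.Agent.Helper63.QL.quantl (w := w) (Cw := C)
        ⟨h0, hw, Pool.Agent.Helper25.ED.exceeds hub, hC⟩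
      refine ⟨c, hc, fun X => ?_⟩
      obtain ⟨N, hN, h1⟩ := h X
      refine ⟨N, hN, ?_⟩
      rw [mul_right_comm] at h1
      exact h1
  · rw [Pool.Agent.Helper25.ED.O_iff hG1 hS0] at h
    rw [Pool.Agent.Helper25.ED.O_iff hG1 hF0]
    exact Pool.Agent.Helper63.EW.of_weighted h0 hw habs hne hC hG hG1 h
  · exact Pool.Agent.Helper25.ED.o_of_weighted h0 hw habs hne hC hG hG1 hGt h
  · obtain ⟨B, hB'⟩ := hB
    have hB2 : ∀ t ∈ Set.Ico (0 : ℝ) 1, w t ≤ B := fun t ht => hB' ⟨t, ht, rfl⟩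
    rw [Pool.Agent.Helper25.ED.O_iff hG1 hF0] at h
    rw [Pool.Agent.Helper25.ED.O_iff hG1 hS0]
    exact Pool.Agent.Helper63.EW.to_weighted h0 hw hB2 hG hG1 h
  · obtain ⟨B, hB'⟩ := hB
    have hB2 : ∀ t ∈ Set.Ico (0 : ℝ) 1, w t ≤ B := fun t ht => hB' ⟨t, ht, rfl⟩
    exact Pool.Agent.Helper25.ED.o_to_weighted h0 hw hB2 hG hG1 h

theorem result :
    (∀ f : ArithmeticFunction ℤ, f = ArithmeticFunction.moebius ∨ f = ArithmeticFunction.liouville →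
      ∃ c : ℝ, 0 < c ∧ ∀ X : ℕ, ∃ N : ℕ, X ≤ N ∧
        c * √N * Real.log (Real.log (Real.log N)) ^ (5 / 4 : ℝ) <
          |S f (fun t => Real.log (Real.exp 1 / (1 - t)) ^ (5 / 4 : ℝ)) N|) ∧
    ∀ f : ArithmeticFunction ℤ, f = ArithmeticFunction.moebius ∨ f = ArithmeticFunction.liouville →
    ∀ w : ℝ → ℝ, (∀ t ∈ Set.Ico (0 : ℝ) 1, 0 ≤ w t) → MonotoneOn w (Set.Ico 0 1) →
    (∃ t ∈ Set.Ico (0 : ℝ) 1, w t ≠ 0) → ∀ C : ℝ, (∀ N : ℕ, 1 ≤ N → w (1 - 1 / N) ≤ C * √N) →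
    (¬ BddAbove (w '' Set.Ico 0 1) →
      (∀ K : ℝ, ∃ X₀ : ℕ, ∀ X : ℕ, X₀ ≤ X →
        (∃ N : ℕ, X ≤ N ∧ N ≤ X ^ 3 ∧ K * √N < S f w N) ∧
        ∃ N : ℕ, X ≤ N ∧ N ≤ X ^ 3 ∧ S f w N < -(K * √N)) ∧
      ∃ c : ℝ, 0 < c ∧ ∀ X : ℕ, ∃ N : ℕ, X ≤ N ∧
        c * w (1 - Real.log (Real.log (Real.log N)) ^ 3 / Real.log (Real.log N)) * √N < |S f w N|) ∧
    ∀ G : ℕ → ℝ, Monotone G → (∀ n, 1 ≤ G n) →
      ((S f w =O[atTop] fun N : ℕ => √(N : ℝ) * G N) → F f =O[atTop] fun N : ℕ => √(N : ℝ) * G N) ∧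
      (Tendsto G atTop atTop →
        (S f w =o[atTop] fun N : ℕ => √(N : ℝ) * G N) → F f =o[atTop] fun N : ℕ => √(N : ℝ) * G N) ∧
      (BddAbove (w '' Set.Ico 0 1) →
        ((F f =O[atTop] fun N : ℕ => √(N : ℝ) * G N) → S f w =O[atTop] fun N : ℕ => √(N : ℝ) * G N) ∧
        ((F f =o[atTop] fun N : ℕ => √(N : ℝ) * G N) → S f w =o[atTop] fun N : ℕ => √(N : ℝ) * G N)) :=
  ⟨fun f hf => Pool.Agent.Helper25.ED.lw_order
      ((general f hf _ Pool.Agent.Helper25.ED.lw_nonneg Pool.Agent.Helper25.ED.lw_mono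
        Pool.Agent.Helper25.ED.lw_ne _ Pool.Agent.Helper25.ED.lw_growth).1 Pool.Agent.Helper25.ED.lw_unbdd).2,
    general⟩

end Pool.Agent.Results.MP_a499ba_nt.EdgeWeights
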