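import Pool.Agent.Helper54.LG.Wrap

open Pool.Agent.Helper57.PC

namespace Pool.Agent.Results.MP_8958e8_nt.LargeGaps

/-- For every `η > 0` and all large `T`, a positive proportion of the ordinates `g` in `[T, (1+η)T]` of nontrivial
zeros of zeta is such that no nontrivial zero, on or off the critical line, has its ordinate in
`(g, g + (6/5) 2π/log T)`. -/
theorem result : ∀ η : ℝ, 0 < η → ∃ c T₀ : ℝ, 0 < c ∧ ∀ T : ℝ, T₀ ≤ T →
    c * (T * Real.log T) ≤ ({g : ℝ | T ≤ g ∧ g ≤ (1 + η) * T ∧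
      (∃ ρ : ℂ, IsNontrivialZero ρ ∧ ρ.im = g) ∧
      ∀ ρ : ℂ, IsNontrivialZero ρ → ρ.im ∉ Set.Ioo g (g + 6 / 5 * (2 * Real.pi / Real.log T))}.ncard : ℝ) :=
  fun _ hη => Pool.Agent.Helper54.LG.gaps_local hη

end Pool.Agent.Results.MP_8958e8_nt.LargeGaps
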