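import Mathlib
import Pool.Agent.Helper25.PretCycle

/-!
The fundamental groups of the `n`-fold cyclic branched covers of the pretzel knots
`P(3, -3, -2k-1)`, which are L-spaces for all `n` and `k` (Issa and Turner), are not
left-orderable; more generally so are the groups of the cyclic products of `n` pretzel blocks
`P(2a+1, -3, -2c-1)` with arbitrary rational parameters `a ≥ 1` and `c ≥ -1` at each place.
-/

set_option autoImplicit false

namespace Pool.Agent.Results.MP_9ae2f3_gt.PretzelCovers

/-- A group is left-orderable if it is nontrivial and has a linear order which is invariant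
under left multiplication. -/
def LeftOrderable (G : Type*) [Group G] : Prop :=
  Nontrivial G ∧ ∃ o : LinearOrder G, ∀ f g h : G, o.le g h → o.le (f * g) (f * h)

/-- Let `a i ≥ 1` and `c i ≥ -1` be rational numbers for `i` in `ZMod n`, and let `G` be generated
by elements `x i`, `X i`, `y i`, `Y i` such that `X i` commutes with `x i` and is a rational power
of `x i` with exponent `a i`, `Y i` commutes with `y i` and is a rational power of `y i` with
exponent `c i`, and the two relations between consecutive places hold.  Then `G` is not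
left-orderable. -/
theorem result (n : ℕ) [NeZero n] (G : Type*) [Group G] (x X y Y : ZMod n → G)
    (a c : ZMod n → ℚ) (ha : ∀ i, 1 ≤ a i) (hc : ∀ i, -1 ≤ c i)
    (hXx : ∀ i, X i * x i = x i * X i) (hX : ∀ i, X i ^ (a i).den = x i ^ (a i).num)
    (hYy : ∀ i, Y i * y i = y i * Y i) (hY : ∀ i, Y i ^ (c i).den = y i ^ (c i).num)
    (h1 : ∀ i, X (i + 1) * (Y (i + 1))⁻¹ = x i * X i * (Y i)⁻¹ * (y i)⁻¹)
    (h2 : ∀ i, X (i + 1) * y (i + 1) * (x (i + 1))⁻¹ * y (i + 1) = X i * y i * (x i)⁻¹)
    (hgen : Subgroup.closure
      (Set.range x ∪ Set.range X ∪ Set.range y ∪ Set.range Y) = ⊤) :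
    ¬ LeftOrderable G := by
  rintro ⟨hnt, o, ho⟩
  letI : LinearOrder G := o
  have hm : Pool.Agent.Helper25.Pret.Mono G G := by
    intro g s t hst
    show g * s < g * t
    refine lt_of_le_of_ne (ho g s t hst.le) ?_
    intro h
    exact hst.ne (mul_left_cancel h)
  have hC : Pool.Agent.Helper25.Pret.IsCycle x X y Y (fun i => (a i).num.toNat)
      (fun i => (a i).den) (fun i => (c i).den) (fun i => (c i).num) := by
    refine ⟨fun i => ?_, fun i => ?_, h2⟩
    · have hden : (0 : ℤ) < (a i).den := by exact_mod_cast (a i).pos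
      have hnum : ((a i).den : ℤ) ≤ (a i).num := by
        have h := ha i
        have h3 : (a i) = (a i).num / (a i).den := (Rat.num_div_den (a i)).symm
        rw [h3, le_div_iff₀ (by exact_mod_cast (a i).pos)] at h
        have h4 : ((a i).den : ℚ) ≤ (a i).num := by linarith
        exact_mod_cast h4
      refine ⟨(a i).pos, by omega, ?_, hXx i, (c i).pos, ?_, hY i, hYy i⟩
      · rw [hX i, ← zpow_natCast (x i)]
        congr 1
        omega
      · have h := hc i
        have h3 : (c i) = (c i).num / (c i).den := (Rat.num_div_den (c i)).symm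
        rw [h3, le_div_iff₀ (by exact_mod_cast (c i).pos)] at h
        have h4 : -((c i).den : ℚ) ≤ (c i).num := by linarith
        exact_mod_cast h4
    · rw [h1 i]
      group
  have hfix : ∀ g : G, g • (1 : G) = 1 := by
    have hsub : (⊤ : Subgroup G) ≤ MulAction.stabilizer G (1 : G) := by
      rw [← hgen, Subgroup.closure_le]
      rintro g (((⟨i, rfl⟩ | ⟨i, rfl⟩) | ⟨i, rfl⟩) | ⟨i, rfl⟩)
      · exact (hC.trivial_all hm 1 i).1
      · exact (hC.trivial_all hm 1 i).2.1
      · exact (hC.trivial_all hm 1 i).2.2.1
      · exact (hC.trivial_all hm 1 i).2.2.2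
    exact fun g => hsub (Subgroup.mem_top g)
  obtain ⟨g, hg⟩ := exists_ne (1 : G)
  have := hfix g
  rw [smul_eq_mul, mul_one] at this
  exact hg this

end Pool.Agent.Results.MP_9ae2f3_gt.PretzelCovers
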