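import Pool.Agent.Helper25.ETCConcl
import Pool.Agent.Helper25.ETCGrow2

/-!
# MP_600e55_nt: growth of the number of generators of open subgroups

If `V ≤ U` are open subgroups of the maximal pro-`p` Galois group of `F`, `U` having at least two
generators, and `V` has fewer than `d(U) + (p - 1) log_p [U : V]` generators, then the whole group
is the decomposition group of a valuation with nontrivial inertia.
-/

set_option autoImplicit false

namespace Pool.Agent.Results.MP_600e55_nt.RankGrowth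

open Pool.Agent.Helper25.ETC

theorem result :
  ∀ (p : ℕ) [Fact p.Prime] (F : Type) [Field F],
    (∃ ζ : F, IsPrimitiveRoot ζ p) →
    ∀ K : IntermediateField F (AlgebraicClosure F),
      K = sSup {L : IntermediateField F (AlgebraicClosure F) |
        FiniteDimensional F L ∧ IsGalois F L ∧ ∃ k : ℕ, Module.finrank F L = p ^ k} →
      -- `E ≤ E'` are finite subextensions of `K`, `[E' : E] = p ^ k`
      ∀ (E E' : IntermediateField F ↥K) (n k : ℕ), E ≤ E' → FiniteDimensional F E' →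
        Module.finrank F E' = Module.finrank F E * p ^ k →
        (∃ ε : E, ε ^ p = -1) → 2 ≤ n →
        Nat.card (Eˣ ⧸ (powMonoidHom p : Eˣ →* Eˣ).range) = p ^ n →
        -- `E'` has fewer than `p ^ (n + (p - 1) k)` classes of `p`-th powers
        Finite (E'ˣ ⧸ (powMonoidHom p : E'ˣ →* E'ˣ).range) →
        Nat.card (E'ˣ ⧸ (powMonoidHom p : E'ˣ →* E'ˣ).range) < p ^ (n + (p - 1) * k) →
      ∃ (n : ℕ) (H : Fin n → Subgroup (↥K ≃ₐ[F] ↥K)), n = 1 ∧ (∀ i, H i = ⊤) ∧
        (∀ i, IsClosed (H i : Set (↥K ≃ₐ[F] ↥K))) ∧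
        (∀ (P : Type) [Group P] [Finite P], (∃ k : ℕ, Nat.card P = p ^ k) →
          ∀ φ : (i : Fin n) → (H i →* P), (∀ i, IsOpen ((φ i).ker : Set (H i))) →
            ∃! ψ : (↥K ≃ₐ[F] ↥K) →* P,
              IsOpen (ψ.ker : Set (↥K ≃ₐ[F] ↥K)) ∧
              ∀ i, ∀ x : H i, ψ (x : ↥K ≃ₐ[F] ↥K) = φ i x) ∧
        (∀ i, ∃ (Γ : Type) (_ : LinearOrderedCommGroupWithZero Γ) (w : Valuation (↥K) Γ),
            (∀ σ : ↥K ≃ₐ[F] ↥K, σ ∈ H i ↔ ∀ x : ↥K, (w (σ x) ≤ 1 ↔ w x ≤ 1)) ∧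
            ∃ σ ∈ H i, σ ≠ 1 ∧ ∀ x : ↥K, w x ≤ 1 → w (σ x - x) < 1) := by
  intro p _ F _ hζ K hK E E' n k hle hE' hdeg hε hn2 hn hfin hcard
  obtain ⟨ζ, hζ⟩ := hζ
  obtain ⟨ε, hε⟩ := hε
  have hp : p.Prime := Fact.out
  have Cx : Ctx p F K (algebraMap F K ζ) :=
    { hp := hp
      hζ := hζ.map_of_injective (algebraMap F K).injective
      pc := pcl_of_eq hp hζ hK }
  have hneg : (-1 : K) ∈ TT p E :=
    ⟨neg_ne_zero.mpr one_ne_zero, ε, ε.2, by
      have := congrArg (algebraMap E K) hε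
      rw [map_pow, map_neg, map_one] at this
      exact this⟩
  exact etc_of_concl (concl_of_growth Cx (E.algebraMap_mem ζ) hneg hle hn hn2 hdeg hfin hcard)

end Pool.Agent.Results.MP_600e55_nt.RankGrowth
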